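import Pool.Agent.H140.LD.Conv

/-!
# MP_29211c_nt, Q2: the determinants with `j - k` and four parameters

For every odd prime `p` and all complex `x, y, z, w` the determinant of order `(p - 1) / 2` with
entries `x + ((j-k)/p) + (j/p) y + (k/p) z + (jk/p) w` is `- a' x - (2/p) b' v`,
`v = w x - (y + 1) (z + 1)`, if `p = 1` modulo `4`, and `x` if `p = 3` modulo `4`.

Method. Put `t_a = (a/p) ζ^a`. The Vandermonde matrix with the nodes `± 1, t_1, ..., t_(p-1)` is the
product of the Fourier matrix and a matrix whose columns of even index are unit vectors, and whose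
block of odd index is a multiple of `[(2/p) ((i-j)/p) + x]`; hence the determinant is a combination
of `∏ (t_a - 1)` and `∏ (t_a + 1)`, which are `√p / ε'` and `√p ε'` by the class number formula of
`ℚ(√p)`, `ε' = a' + b' √p`. The quotient of the Vandermonde determinants of the `t_a` and of the
`ζ^a` is evaluated, with its sign. The parameters `y, z, w` are removed with the fact that `(j/p)`
is the first column, and `(k/p)` up to sign the first row, of the matrix.
-/

set_option autoImplicit false

namespace Pool.Agent.Results.MP_29211c_nt.MinusMatrices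

open NumberField Pool.Agent.H140.LD

/-- The determinant `D^-_p`. -/
noncomputable def Dminus (p : ℕ) [Fact p.Prime] (x y z w : ℂ) : ℂ :=
  (Matrix.of fun j k : Fin ((p - 1) / 2) =>
    x + ((legendreSym p (((j : ℕ) : ℤ) - ((k : ℕ) : ℤ)) : ℤ) : ℂ) +
      ((legendreSym p ((j : ℕ) : ℤ) : ℤ) : ℂ) * y + ((legendreSym p ((k : ℕ) : ℤ) : ℤ) : ℂ) * z +
      ((legendreSym p (((j : ℕ) : ℤ) * ((k : ℕ) : ℤ)) : ℤ) : ℂ) * w).det

/-- **Q2.** `K = ℚ(√p)`, `s = √p`, `ε` the fundamental unit larger than `1` (in the real embedding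
`σ` with `σ s > 0`), `ε ^ ((2 - (2/p)) h) = a' + b' s`. -/
theorem result (p : ℕ) [Fact p.Prime] (hp2 : p ≠ 2) :
    (p % 4 = 1 → ∀ (K : Type) [Field K] [NumberField K] (s : K) (σ : K →+* ℝ) (ε : (𝓞 K)ˣ)
      (a' b' : ℚ), FundUnit p K s σ ε →
      ((ε : 𝓞 K) : K) ^ ((2 - legendreSym p 2).toNat * classNumber K) = a' + b' * s →
      ∀ x y z w : ℂ, Dminus p x y z w =
        -a' * x - ((legendreSym p 2 : ℤ) : ℂ) * b' * (w * x - (y + 1) * (z + 1))) ∧
    (p % 4 = 3 → ∀ x y z w : ℂ, Dminus p x y z w = x) := by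
  have hp := (Fact.out : p.Prime).two_le
  have hodd : p % 2 = 1 := by
    rcases (Fact.out : p.Prime).eq_two_or_odd with h | h
    · exact absurd h hp2
    · exact h
  obtain ⟨m, hm⟩ : ∃ m, p = 2 * m + 1 := ⟨p / 2, by omega⟩
  have hn : (p - 1) / 2 = m := by omega
  constructor
  · intro h4 K _ _ s σ ε a' b' hF hab x y z w
    unfold Dminus
    rw [hn, four_T (by omega) (chi p 2 * b') (-a') (fun x => by
      rw [TJ_m_one h4 hm hF hab]; ring) x y z w, sg_one h4, leg_chi]
    push_cast
    ring
  · intro h4 x y z w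
    unfold Dminus
    rw [hn, four_T (by omega) 0 1 (fun x => by rw [TJ_m_three h4 hm]; ring) x y z w]
    ring

end Pool.Agent.Results.MP_29211c_nt.MinusMatrices
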