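import Pool.Agent.H140.LD.Hank2

/-!
# MP_29211c_nt, Q1: the determinants with `j + k` and four parameters

For every prime `p > 3` and all complex `x, y, z, w` the determinant of order `(p - 1) / 2` with
entries `x + ((j+k)/p) + (j/p) y + (k/p) z + (jk/p) w` is
`(2/p) 2^((p-3)/2) ((p b - 2 a) x + (a - 2 b) v)`, `v = w x - (y + 1) (z + 1)`, if `p = 1` modulo
`4`, and `2^((p-3)/2) (v - 2 x)` if `p = 3` modulo `4`.

Method. With the Gauss sum `G`, `G ((j+k)/p) = 2 ∑ ζ^(r j) ζ^(r k) + 1 - p [j = k = 0]`, the sum over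
the quadratic residues `r`; so `G (H + x J) = Vᵀ (2 + (1 + G x) β βᵀ - p α αᵀ) V` with
`Vᵀ α = e_0`, `Vᵀ β = 1`. The vectors `α, β` are given by the polynomial with the roots `ζ^n` for
the nonresidues `n`, and their scalar products by two coefficients of polynomials of degree `p + 1`.
The square of `det V` is a resultant, a product of powers of `∏ (1 - ζ^r)` and `∏ (1 - ζ^n)` with the
numbers of consecutive residues and nonresidues as exponents.
-/

set_option autoImplicit false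

namespace Pool.Agent.Results.MP_29211c_nt.PlusMatrices

open NumberField Pool.Agent.H140.LD

/-- The determinant `D^+_p`. -/
noncomputable def Dplus (p : ℕ) [Fact p.Prime] (x y z w : ℂ) : ℂ :=
  (Matrix.of fun j k : Fin ((p - 1) / 2) =>
    x + ((legendreSym p (((j : ℕ) : ℤ) + ((k : ℕ) : ℤ)) : ℤ) : ℂ) +
      ((legendreSym p ((j : ℕ) : ℤ) : ℤ) : ℂ) * y + ((legendreSym p ((k : ℕ) : ℤ) : ℤ) : ℂ) * z +
      ((legendreSym p (((j : ℕ) : ℤ) * ((k : ℕ) : ℤ)) : ℤ) : ℂ) * w).det

/-- **Q1.** `K = ℚ(√p)`, `s = √p`, `ε` the fundamental unit larger than `1` (in the real embedding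
`σ` with `σ s > 0`), `ε ^ h = a + b s`. -/
theorem result (p : ℕ) [Fact p.Prime] (hp3 : 3 < p) :
    (p % 4 = 1 → ∀ (K : Type) [Field K] [NumberField K] (s : K) (σ : K →+* ℝ) (ε : (𝓞 K)ˣ)
      (a b : ℚ), FundUnit p K s σ ε →
      ((ε : 𝓞 K) : K) ^ classNumber K = a + b * s →
      ∀ x y z w : ℂ, Dplus p x y z w =
        ((legendreSym p 2 : ℤ) : ℂ) * 2 ^ ((p - 3) / 2) *
          ((p * b - 2 * a) * x + (a - 2 * b) * (w * x - (y + 1) * (z + 1)))) ∧
    (p % 4 = 3 → ∀ x y z w : ℂ, Dplus p x y z w =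
      2 ^ ((p - 3) / 2) * ((w * x - (y + 1) * (z + 1)) - 2 * x)) := by
  have hodd : p % 2 = 1 := by
    rcases (Fact.out : p.Prime).eq_two_or_odd with h | h
    · omega
    · exact h
  obtain ⟨m, hm⟩ : ∃ m, p = 2 * m + 1 := ⟨p / 2, by omega⟩
  have hn : (p - 1) / 2 = m := by omega
  have hn3 : (p - 3) / 2 = m - 1 := by omega
  constructor
  · intro h4 K _ _ s σ ε a b hF hab x y z w
    unfold Dplus
    rw [hn, hn3, four_H (by omega) (chi p 2 * 2 ^ (m - 1) * (2 * b - a))
      (chi p 2 * 2 ^ (m - 1) * (p * b - 2 * a)) (fun x => by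
      rw [HJ_one h4 hm hF hab]; ring) x y z w, leg_chi]
    push_cast
    ring
  · intro h4 x y z w
    unfold Dplus
    rw [hn, hn3, four_H (by omega) (-2 ^ (m - 1)) (-2 ^ (m - 1) * 2) (fun x => by
      rw [HJ_three h4 (by omega) hm]; ring) x y z w]
    ring

end Pool.Agent.Results.MP_29211c_nt.PlusMatrices
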